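import Pool.Agent.E8helper1.TPS.Pub
import Pool.Agent.E8helper1.TPQ.Fin
import Pool.Agent.E8helper1.TS.Avg

/-!
# Conversion of the definitions
-/

open CategoryTheory AlgebraicGeometry Filter Topology

open scoped ENNReal

universe u

namespace Pool.Agent.E8helper1.TPS

open Module
open Pool.Agent.H914 Pool.Agent.H914.VarClass Pool.Agent.H914.VarClass.Obj
  Pool.Agent.H914.WeilCohomology Pool.Agent.H281R3.HT
open Pool.Agent.Y129 (pw pj PowerAction TG tateClasses tateDim cycRank finrank_TG)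
open Pool.Agent.E8helper1.TX
open Pool.Agent.E8helper1.TP (Gal hdim algDim Quot algDim_eq alg)
open Pool.Agent.E8helper1.TPQ (exponent bound Frobenii HomNum tate_lawQ)

set_option linter.unusedSectionVars false

variable {k : Type u} [Field k] {𝒱 : VarClass k} {ops : CycleOps 𝒱}
  {W : WeilCohomology.{u, 0} ops} {X : 𝒱.Obj}

theorem radical_eq (Z : 𝒱.Obj) (j : ℕ) :
    radical (W.tr Z) (alg W Z j) (alg W Z (Z.dim - j)) = TS.numTriv W Z j := rfl

theorem strong_of (G : Gal W X) {n : ℕ} (h : StrongTate G n) (j : ℕ) :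
    TS.StrongAt W X G.chi G.rho n j := by
  intro Δ hΔ E F hEF hF hE hFE
  have h1 := h j Δ hΔ E F hEF hF hE hFE
  have h2 : finrank W.K (TS.numTriv W (pw X n) j) ≤ finrank W.K (TS.algj W (pw X n) j) :=
    Submodule.finrank_mono fun _ hx => hx.1
  rw [pairingRank, radical_eq] at h1
  have h3 : finrank W.K (Submodule.span W.K (alg W (pw X n) j)) =
    finrank W.K (TS.algj W (pw X n) j) := rfl
  rw [h3] at h1
  omega

/-- The strong form implies semisimplicity and the Tate conjecture. -/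
theorem of_strong (hSOC : TS.S_SOC) (hAVG : TS.S_AVG) (G : Gal W X) {n : ℕ} (hn : 1 ≤ n)
    (h : StrongTate G n) : G.Semisimple ∧ G.TateConj n :=
  ⟨TS.semisimpleH_of_strong G.power hSOC hAVG (TS.strong_two G.power hn (strong_of G h X.dim)),
    (G.le_iff n).1 (TS.tate_of_strong G.power (strong_of G h))⟩

/-- **The theorem**, every characteristic. -/
theorem tate_lawS (hSOC : TS.S_SOC) (hAVG : TS.S_AVG) {ℓ : ℕ} [Fact ℓ.Prime]
    (φ : W.K ≃+* ℚ_[ℓ])
    (hX : 0 < hdim W X) (G : Gal W X) (hG : Frobenii G φ) (M : ℕ)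
    (hM : M = exponent (hdim W X) X.dim) (m : ℕ) (hm : M ≤ m)
    (hT : StrongTate G (2 * m - 1) ∨ G.Semisimple ∧ G.TateConj (2 * m - 1)) :
    G.Semisimple ∧ (∀ n, HomNum W (pw X n)) ∧ ∃ N : ℕ, 1 ≤ N ∧ N ≤ bound (hdim W X) M ∧
      Quot G.tateDim (algDim W X) (bound (hdim W X) M) N ∧ (N = 1 ↔ ∀ n, G.TateConj n) ∧
      ((hdim W X : ℝ) ^ 3 * (M : ℝ) ^ 2 * Real.log (2 * hdim W X * M + 1) ≤ m → N = 1) := by
  have h1 : 1 ≤ (hdim W X).factorial * ((2 * X.dim + 1) * (hdim W X).factorial) ^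
      (hdim W X - 1) :=
    Nat.succ_le_of_lt (Nat.mul_pos (Nat.factorial_pos _)
      (Nat.pow_pos (Nat.mul_pos (by omega) (Nat.factorial_pos _))))
  have hM2 : 2 ≤ M := by
    rw [hM, exponent]
    omega
  obtain ⟨hss, hT'⟩ : G.Semisimple ∧ G.TateConj (2 * m - 1) := by
    rcases hT with h | h
    · exact of_strong hSOC hAVG G (by omega) h
    · exact h
  exact ⟨hss, tate_lawQ TPQ.s_asmq2 Pool.Agent.E8helper97.TW.t_EMB φ hX G hG hss M hM m hm hT'⟩

end Pool.Agent.E8helper1.TPS
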