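import Pool.Agent.E8helper1.TPQ.Pub

/-!
# The strong form of the Tate conjecture: definitions
-/

open CategoryTheory AlgebraicGeometry

universe u

namespace Pool.Agent.E8helper1.TPS

section generic

variable {K A Γ : Type} [Field K] [Ring A] [Algebra K A] [Group Γ]

/-- The linear combinations of elements of `C` whose products with all elements of `C'` have trace
zero. -/
def radical (tr : A →ₗ[K] K) (C C' : Set A) : Submodule K A where
  carrier := {c | c ∈ Submodule.span K C ∧ ∀ c' ∈ C', tr (c * c') = 0}
  zero_mem' := ⟨zero_mem _, fun c' _ => by rw [zero_mul, map_zero]⟩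
  add_mem' := fun {a b} ha hb => ⟨add_mem ha.1 hb.1, fun c' hc' => by
    rw [add_mul, map_add, ha.2 c' hc', hb.2 c' hc', add_zero]⟩
  smul_mem' := fun r a ha => ⟨Submodule.smul_mem _ _ ha.1, fun c' hc' => by
    rw [smul_mul_assoc, map_smul, ha.2 c' hc', smul_zero]⟩

/-- The rank of the pairing `tr (c * c')` of elements `c` of `C` and `c'` of `C'`. -/
noncomputable def pairingRank (tr : A →ₗ[K] K) (C C' : Set A) : ℕ :=
  Module.finrank K (Submodule.span K C) - Module.finrank K (radical tr C C')

/-- Every subquotient `F / E` of the space `gr (2 j)` on which a subgroup of finite index acts by the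
character `χ ^ j` has dimension at most `r`. -/
def SubquotientBound (χ : Γ → K) (gr : ℕ → Submodule K A) (ρ : Γ → A → A) (j r : ℕ) : Prop :=
  ∀ Δ : Subgroup Γ, Δ.FiniteIndex → ∀ E F : Submodule K A, E ≤ F → F ≤ gr (2 * j) →
    (∀ g ∈ Δ, ∀ x ∈ E, ρ g x ∈ E) → (∀ g ∈ Δ, ∀ x ∈ F, ρ g x - χ g ^ j • x ∈ E) →
    Module.finrank K F ≤ Module.finrank K E + r

end generic

open Pool.Agent.H914 Pool.Agent.H914.VarClass Pool.Agent.H914.VarClass.Obj
  Pool.Agent.H914.WeilCohomology
open Pool.Agent.Y129 (pw)

variable {k : Type u} [Field k] {𝒱 : VarClass k} {ops : CycleOps 𝒱}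
  {W : WeilCohomology.{u, 0} ops} {X : 𝒱.Obj}

/-- The strong form of the Tate conjecture for `Y = pw X n`: for all `j`, every subquotient of the
cohomology of degree `2 j` on which a subgroup of finite index acts by `χ ^ j` has dimension at most
the rank of the group of the cycles of codimension `j` on `Y` modulo numerical equivalence (the rank
of the pairing with the cycles of the complementary codimension). -/
def StrongTate (G : TP.Gal W X) (n : ℕ) : Prop :=
  ∀ j, SubquotientBound G.χ (W.gr (pw X n)) (G.ρ n) j
    (pairingRank (W.tr (pw X n)) (TP.alg W (pw X n) j) (TP.alg W (pw X n) ((pw X n).dim - j)))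

end Pool.Agent.E8helper1.TPS
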